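import Pool.Agent.N463.HW.Stm

/-!
# Project HW (MP_11bc5f_an), part IBP: two integrations by parts
-/

set_option autoImplicit false

open MeasureTheory

namespace Pool.Agent.N377.HW

open Pool.Agent.N463.HW

lemma gam_deriv (m : ℕ) (r : ℝ) :
    HasDerivAt (Gam m)
      (r ^ (m + 1) * (m - Real.pi * r ^ 2) * Real.exp (-Real.pi * r ^ 2)) r := by
  have hc : Continuous
      (fun s : ℝ => s ^ (m + 1) * (m - Real.pi * s ^ 2) * Real.exp (-Real.pi * s ^ 2)) := by
    fun_prop
  exact intervalIntegral.integral_hasDerivAt_right (hc.intervalIntegrable _ _)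
    hc.stronglyMeasurable.stronglyMeasurableAtFilter hc.continuousAt

lemma re_deriv {f : ℝ → ℂ} {f' : ℂ} {t : ℝ} (h : HasDerivAt f f' t) :
    HasDerivAt (fun s => (f s).re) f'.re t :=
  Complex.reCLM.hasFDerivAt.comp_hasDerivAt t h

lemma im_deriv {f : ℝ → ℂ} {f' : ℂ} {t : ℝ} (h : HasDerivAt f f' t) :
    HasDerivAt (fun s => (f s).im) f'.im t :=
  Complex.imCLM.hasFDerivAt.comp_hasDerivAt t h

theorem t_IBP (h1 : S_DER) (h2 : S_ORT) : S_IBP := by
  intro x P n hS m hm
  obtain ⟨hd, hGc, hgp, hGp, -⟩ := h1 x hS.x_zero hS.x_sum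
  have hP := hS.P_pos
  have hpi : 0 < Real.pi := Real.pi_pos
  have hgc : Continuous (gs x) := continuous_iff_continuousAt.2 fun τ => (hd τ).continuousAt
  obtain ⟨c, hc⟩ : ∃ c : ℝ, c = Real.sqrt (P / Real.pi) := ⟨_, rfl⟩
  have hc2 : Real.pi * c ^ 2 = P := by
    rw [hc, Real.sq_sqrt (by positivity)]
    field_simp
  -- derivatives
  have dre : ∀ τ, HasDerivAt (fun s => (gs x s).re) (-(Gs x τ).im) τ := by
    intro τ
    have := re_deriv (hd τ)
    simpa using this
  have dim : ∀ τ, HasDerivAt (fun s => (gs x s).im) ((Gs x τ).re) τ := by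
    intro τ
    have := im_deriv (hd τ)
    simpa using this
  have hrho : ∀ τ, rho P x τ = c * Real.exp (gs x τ).re := by
    intro τ; rw [rho, hc]
  have hp : ∀ τ, pp P x τ = Real.pi * rho P x τ ^ 2 := by
    intro τ
    rw [hrho, mul_pow, ← mul_assoc, hc2, pp, ← Real.exp_nat_mul]
    norm_num
  have drho : ∀ τ, HasDerivAt (rho P x) (-(rho P x τ * (Gs x τ).im)) τ := by
    intro τ
    have h := ((dre τ).exp).const_mul c
    have e : rho P x = fun s => c * Real.exp (gs x s).re := funext hrho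
    rw [e]
    exact h.congr_deriv (by ring)
  have dp : ∀ τ, HasDerivAt (pp P x) (-(2 * pp P x τ * (Gs x τ).im)) τ := by
    intro τ
    have h := (((dre τ).const_mul 2).exp).const_mul P
    have e : pp P x = fun s => P * Real.exp (2 * (gs x s).re) := rfl
    rw [e]
    exact h.congr_deriv (by ring)
  have dth : ∀ τ, HasDerivAt (tht x) (1 + (Gs x τ).re) τ := by
    intro τ
    exact (hasDerivAt_id τ).add (dim τ)
  -- the exponential factor
  obtain ⟨E, hE⟩ : ∃ E : ℝ → ℂ, E = fun τ => Complex.exp (m * (tht x τ : ℂ) * Complex.I) :=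
    ⟨_, rfl⟩
  have dE : ∀ τ, HasDerivAt E ((m : ℂ) * Complex.I * ((1 + (Gs x τ).re : ℝ) : ℂ) * E τ) τ := by
    intro τ
    have h := ((((dth τ).ofReal_comp).const_mul (m : ℂ)).mul_const Complex.I).cexp
    rw [hE]
    exact h.congr_deriv (by ring)
  -- the function `exp (m (i τ + g))`
  obtain ⟨Q, hQ⟩ : ∃ Q : ℝ → ℂ, Q = fun τ : ℝ => Complex.exp (m * (τ * Complex.I + gs x τ)) :=
    ⟨_, rfl⟩
  have dQ : ∀ τ : ℝ, HasDerivAt Q ((m : ℂ) * Complex.I * (1 + Gs x τ) * Q τ) τ := by
    intro τ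
    have h0 : HasDerivAt (fun s : ℝ => (s : ℂ) * Complex.I + gs x s)
        (1 * Complex.I + Complex.I * Gs x τ) τ :=
      (((hasDerivAt_id τ).ofReal_comp).mul_const Complex.I).add (hd τ)
    have h := (h0.const_mul (m : ℂ)).cexp
    rw [hQ]
    exact h.congr_deriv (by ring)
  have hEQ : ∀ τ, E τ * ((rho P x τ : ℝ) : ℂ) ^ m = (c : ℂ) ^ m * Q τ := by
    intro τ
    rw [hE, hQ, hrho]
    simp only
    have e1 : (τ : ℂ) * Complex.I + gs x τ
        = ((gs x τ).re : ℂ) + (tht x τ : ℂ) * Complex.I := by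
      apply Complex.ext <;> simp [tht]
    rw [e1, mul_add, Complex.exp_add]
    push_cast
    rw [mul_pow, ← Complex.exp_nat_mul, mul_assoc (m : ℂ)]
    ring
  -- the primitive
  obtain ⟨F, hF⟩ : ∃ F : ℝ → ℂ, F = fun τ => E τ * ((Gam m (rho P x τ) : ℝ) : ℂ) -
      (1 / (2 * Real.pi) : ℂ) * ((c : ℂ) ^ m * (Q τ * (((1 + pp P x τ) *
        Real.exp (-(pp P x τ)) : ℝ) : ℂ))) := ⟨_, rfl⟩
  have dGam : ∀ τ, HasDerivAt (fun s => Gam m (rho P x s))
      (rho P x τ ^ (m + 1) * (m - pp P x τ) * Real.exp (-(pp P x τ)) *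
        (-(rho P x τ * (Gs x τ).im))) τ := by
    intro τ
    have h := (gam_deriv m (rho P x τ)).comp τ (drho τ)
    rw [neg_mul, ← hp] at h
    exact h
  have dpe : ∀ τ, HasDerivAt (fun s => (1 + pp P x s) * Real.exp (-(pp P x s)))
      (2 * pp P x τ * pp P x τ * (Gs x τ).im * Real.exp (-(pp P x τ))) τ := by
    intro τ
    have h := ((dp τ).const_add 1).mul (((dp τ).neg).exp)
    exact h.congr_deriv (by simp only [Pi.neg_apply]; ring)
  have dF : ∀ τ, HasDerivAt F
      ((m : ℂ) * Complex.I * (E τ * ((Gam m (rho P x τ) : ℝ) : ℂ) *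
          ((1 + (Gs x τ).re : ℝ) : ℂ)) -
        ((m : ℂ) * Complex.I / (2 * Real.pi) * (c : ℂ) ^ m) * (Q τ * Ns n τ)) τ := by
    intro τ
    have h := ((dE τ).mul ((dGam τ).ofReal_comp)).sub
      ((((dQ τ).mul ((dpe τ).ofReal_comp)).const_mul ((c : ℂ) ^ m)).const_mul
        (1 / (2 * Real.pi) : ℂ))
    rw [hF]
    refine h.congr_deriv ?_
    rw [← hS.eqn τ]
    have e2 : (E τ) * (((rho P x τ ^ (m + 1) * (m - pp P x τ) * Real.exp (-(pp P x τ)) *
        (-(rho P x τ * (Gs x τ).im)) : ℝ) : ℂ)) =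
        -((c : ℂ) ^ m * Q τ) * (((m - pp P x τ) * Real.exp (-(pp P x τ)) *
          (pp P x τ / Real.pi) * (Gs x τ).im : ℝ) : ℂ) := by
      rw [← hEQ τ]
      have e3 : pp P x τ / Real.pi = rho P x τ ^ 2 := by
        rw [hp]; field_simp
      rw [e3]
      push_cast
      ring
    rw [e2]
    have e4 : ((Gs x τ).im : ℂ) = (Gs x τ - (starRingEnd ℂ) (Gs x τ)) / (2 * Complex.I) := by
      rw [Complex.sub_conj]
      field_simp
      push_cast
      ring
    have hpc : (Real.pi : ℂ) ≠ 0 := by exact_mod_cast hpi.ne'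
    have hI : Complex.I ^ 2 = -1 := Complex.I_sq
    have hII : Complex.I ≠ 0 := Complex.I_ne_zero
    push_cast
    rw [e4]
    generalize (starRingEnd ℂ) (Gs x τ) = Gb
    generalize Gs x τ = G
    generalize Complex.exp (-(pp P x τ : ℂ)) = ex
    generalize ((pp P x τ : ℝ) : ℂ) = p
    generalize Q τ = q
    generalize (c : ℂ) ^ m = cm
    field_simp
    ring_nf
    simp only [hI]
    ring
  -- continuity
  have cE : Continuous E := continuous_iff_continuousAt.2 fun τ => (dE τ).continuousAt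
  have cQ : Continuous Q := continuous_iff_continuousAt.2 fun τ => (dQ τ).continuousAt
  have cp : Continuous (pp P x) := continuous_iff_continuousAt.2 fun τ => (dp τ).continuousAt
  have cGam : Continuous (fun s => Gam m (rho P x s)) :=
    continuous_iff_continuousAt.2 fun τ => (dGam τ).continuousAt
  have cN : Continuous (Ns n) := by
    have e : Ns n = fun τ => Complex.exp (-(pp P x τ : ℂ)) *
        (1 + Gs x τ + (pp P x τ : ℂ) * (1 + (starRingEnd ℂ) (Gs x τ))) :=
      funext fun τ => (hS.eqn τ).symm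
    rw [e]
    have c1 : Continuous fun τ => (starRingEnd ℂ) (Gs x τ) := Complex.continuous_conj.comp hGc
    fun_prop
  have cA : Continuous (fun τ => E τ * ((Gam m (rho P x τ) : ℝ) : ℂ) *
      ((1 + (Gs x τ).re : ℝ) : ℂ)) := by
    have c2 : Continuous fun τ => (Gs x τ).re := Complex.continuous_re.comp hGc
    fun_prop
  have cB : Continuous (fun τ => Q τ * Ns n τ) := cQ.mul cN
  -- periodicity
  have hper : F (2 * Real.pi) = F 0 := by
    have g0 : gs x (2 * Real.pi) = gs x 0 := by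
      have := hgp 0
      rwa [zero_add] at this
    have r0 : rho P x (2 * Real.pi) = rho P x 0 := by rw [hrho, hrho, g0]
    have p0 : pp P x (2 * Real.pi) = pp P x 0 := by rw [hp, hp, r0]
    have e0 : Complex.exp (m * (2 * Real.pi * Complex.I)) = 1 := by
      rw [Complex.exp_nat_mul, Complex.exp_two_pi_mul_I, one_pow]
    have E0 : E (2 * Real.pi) = E 0 := by
      rw [hE]
      simp only [tht, g0]
      push_cast
      rw [show (m : ℂ) * (2 * Real.pi + ((gs x 0).im : ℂ)) * Complex.I =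
        m * (2 * Real.pi * Complex.I) + m * (0 + ((gs x 0).im : ℂ)) * Complex.I by ring,
        Complex.exp_add, e0, one_mul]
    have Q0 : Q (2 * Real.pi) = Q 0 := by
      rw [hQ]
      simp only [g0]
      push_cast
      rw [show (m : ℂ) * (2 * Real.pi * Complex.I + gs x 0) =
        m * (2 * Real.pi * Complex.I) + m * (0 * Complex.I + gs x 0) by ring,
        Complex.exp_add, e0, one_mul]
    rw [hF]
    simp only [E0, Q0, r0, p0]
  -- conclusion
  have key := intervalIntegral.integral_eq_sub_of_hasDerivAt (a := 0) (b := 2 * Real.pi)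
    (fun τ _ => dF τ) (Continuous.intervalIntegrable
      ((cA.const_mul _).sub (cB.const_mul _)) _ _)
  rw [hper, sub_self, intervalIntegral.integral_sub
    ((cA.const_mul _).intervalIntegrable _ _) ((cB.const_mul _).intervalIntegrable _ _),
    intervalIntegral.integral_const_mul, intervalIntegral.integral_const_mul] at key
  have ort := h2 x n hS.x_zero hS.x_sum hS.n_sum m hm
  have ort' : ∫ τ in (0 : ℝ)..2 * Real.pi, Q τ * Ns n τ = 0 := by
    rw [hQ]; exact ort
  rw [ort', mul_zero, sub_zero] at key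
  have hm0 : (m : ℂ) * Complex.I ≠ 0 :=
    mul_ne_zero (Nat.cast_ne_zero.2 (by omega)) Complex.I_ne_zero
  have fin := (mul_eq_zero.1 key).resolve_left hm0
  rw [hE] at fin
  exact fin

end Pool.Agent.N377.HW
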